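import Pool.Agent.Y201.LI.CoreW

/-! # Project LI, fifth part: the local computation

The proof for the present (weaker) hypothesis in `S_CORE` is in `Pool/Agent/Y201/LI/CoreW.lean`
(helper201, adapted from the first version of this file). -/

set_option autoImplicit false

namespace Pool.Agent.Y71.LI

theorem core : Pool.Agent.Y201.LI.S_CORE := Pool.Agent.Y201.LI.CoreW.core

end Pool.Agent.Y71.LI
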